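import Mathlib
import Pool.Agent.N695.CY.Sparse

set_option autoImplicit false

/-!
# Points over all cyclotomic fields that are sparse in some rational base

Let `X` be a closed subset of projective `n`-space over `ℂ`, given by any set of forms, which is
Brody hyperbolic.  Fix vectors `u_1, ..., u_p`, a number of terms `r` and a bound `B`.  Only
finitely many points of `X` have the form `[a_1 u_1 + ... + a_p u_p]` where, for some rational
number `b` different from `0`, `1`, `-1`, every `a_i` is a sum of `r` terms `b ^ m * x`, with `m`
an integer and `x` a cyclotomic integer of any conductor with mean square of conjugates at most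
`B`.  All bases `b` and all conductors are taken together.

The points are not defined over one number field, and as `b` varies they do not come from a group
of finite rank, so that Laurent's theorem does not apply.

Method: vanishing sums `∑ c_i b ^ e_i ζ_i` with fixed complex coefficients `c_i`, arbitrary roots
of unity `ζ_i` and an arbitrary rational base split along the classes of a relation given by a
finite set of ratios, independent of `b` (Mann's lemma on vanishing sums of roots of unity, a gap
principle for numerators and denominators, and a basis of `ℂ` over the field of all roots of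
unity).  So the solutions of a polynomial system in such numbers lie on finitely many cosets of
subtori contained in the variety (`structure_thm`), and these give rational curves in `X` unless
they are mapped to points.  Loxton's theorem writes cyclotomic integers with bounded conjugates as
short sums of roots of unity.
-/

namespace Pool.Agent.Results.MP_627a61_nt.CyclotomicSparsePoints

open MvPolynomial Pool.Agent.H458.Sp Pool.Agent.N695.CY

theorem result (n : ℕ) (FF : Set (MvPolynomial (Fin (n + 1)) ℂ))
    (hom : ∀ F ∈ FF, ∃ e, F.IsHomogeneous e) (hyp : BrodyHyperbolic FF)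
    (p : ℕ) (u : Fin p → Fin (n + 1) → ℂ) (r : ℕ) (B : ℝ) :
    {P : Projectivization ℂ (Fin (n + 1) → ℂ) | ∃ (b : ℚ) (a : Fin p → ℂ)
      (hv : ∑ i, a i • u i ≠ 0), b ≠ 0 ∧ |b| ≠ 1 ∧ (∀ i, SparseCyc b r B (a i)) ∧
      (∀ F ∈ FF, eval (∑ i, a i • u i) F = 0) ∧
      P = Projectivization.mk ℂ (∑ i, a i • u i) hv}.Finite := by
  classical
  obtain ⟨L, hL⟩ := decomp p u r B
  refine (Set.finite_iUnion fun J : Finset (Fin p × Fin r × Fin L) =>
    finite_points FF hom hyp (fun k : J => u (k : Fin p × Fin r × Fin L).1)).subset ?_
  rintro P ⟨b, a, hv, hb0, hb1, ha, hF, rfl⟩
  obtain ⟨J, z, hz, hpt⟩ := hL b a hb0 hb1 ha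
  rw [Set.mem_iUnion]
  refine ⟨J, z, ?_, hz, ?_, ?_⟩
  · rw [← hpt]; exact hv
  · rw [← hpt]; exact hF
  · simp only [hpt]

end Pool.Agent.Results.MP_627a61_nt.CyclotomicSparsePoints
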