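import Pool.Agent.N419.HU.Fin

set_option autoImplicit false

/-!
# P-recursive sequences of rational points on hyperbolic varieties: uniform bounds and density

A sequence in a field is P-recursive (holonomic) of order at most `t` if it satisfies a nontrivial
linear recurrence with `t + 1` terms and polynomial coefficients of any degree, as `m!`,
`binomial(2m, m)`, the Apéry numbers and all linear recurrence sequences.

**(1) A bound uniform in the variety and the number field.** For all `n`, `d`, `t` there is a number
`B` such that for all number fields `K` and all closed `X` in projective `n`-space over `K`, given by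
forms of degree at most `d`, without nonconstant rational curves (for instance `X` hyperbolic), the
following holds for all sequences of vectors `x(m)` whose coordinates are P-recursive of order at
most `t` over `K` and which are, for all large `m`, zero or points of `X(K)`: on each class modulo
some `T` the point `x(m)` is constant for large `m`, and these are altogether at most `B` points. The
number `B` does not depend on `X`, on `K`, on the degrees and heights of the coefficients of the
recurrences or on the initial values.

**(2) Sequences which are not on the variety.** Let `X` be the closed subset of projective `n`-space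
over the number field `k` given by the forms in `FF`, and let `σ` be an embedding of `k` in `ℂ`. If
`X_σ` is Brody (equivalently Kobayashi) hyperbolic, it contains no nonconstant rational curve, and the
latter is equivalent to: for every P-recursive sequence of vectors `x(m)` over a number field
`K ⊇ k` the set of the `m` with `x(m)` a point of `X` is, up to a set of upper Banach density zero,
contained in finitely many arithmetic progressions, on each of which the point `x(m)` is eventually
constant.

Method.  The polynomials over `ℂ(t)` which vanish on the fundamental matrix `U(m)` of a difference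
system form an ideal, with a stabiliser `G` in `GL_r(ℂ)` (as in the Galois theory of difference
equations); `U(m)` differs from the specialisation at `m` of one point, with coordinates algebraic
over `ℂ(t)`, of the zero set of the ideal by an element of `G`, so that the points of the sequence
are specialisations of points of one orbit of `G`.  Orbits of groups of matrices, and more generally
families of points given by iterated recurrences, have at most `B` points on `X`, uniformly in `X`
(`uniform_all`): a limit of larger and larger orbits on varieties `X_i` given by forms of degree at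
most `d` gives, by the theory of iterated recurrences of the starting files (helper377 and others), a
rational curve on the limit of the `X_i`, hence on some `X_i`.  So the ratios of the coordinates of
`x(m)` are roots of one polynomial over `K(t)`.  By Hilbert's irreducibility theorem, on long runs of
consecutive integers these roots are values of rational functions, that is, the points are on
finitely many rational curves of `X`, which are constant; noetherian arguments pass from long runs to
progressions, and from sets of positive upper Banach density to progressions.

Parts of the proof were written by helpers 558, 402, 999, 400, 130, 97, 891 and 803.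
-/

namespace Pool.Agent.Results.MP_627a61_nt.HolonomicSequences

open Polynomial Pool.Agent.H458.Sp Pool.Agent.TH717.GO

/-- The sequence `s` satisfies a nontrivial linear recurrence with `t + 1` terms and polynomial
coefficients. -/
def RecOrder {K : Type} [Field K] (t : ℕ) (s : ℕ → K) : Prop :=
  ∃ p : Fin (t + 1) → K[X], p ≠ 0 ∧
    ∀ m : ℕ, ∑ i : Fin (t + 1), (p i).eval (m : K) * s (m + i) = 0

/-- There are `c_1, ..., c_B` and `T ≥ 1` such that for each class modulo `T` there is `i` such that
`x(m)` is a multiple of `c_i` for all large `m` in the class. -/
def EventuallyPoints {K : Type} [Field K] {n : ℕ} (B : ℕ) (x : ℕ → Fin (n + 1) → K) : Prop :=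
  ∃ (c : Fin B → Fin (n + 1) → K) (T : ℕ), 1 ≤ T ∧ ∀ a : ℕ, ∃ i, ∃ N : ℕ, ∀ m ≥ N,
    m % T = a % T → ∃ s : K, x m = s • c i

/-- `S` has upper Banach density zero. -/
def BanachDensityZero (S : Set ℕ) : Prop :=
  ∀ δ : ℝ, 0 < δ → ∃ L : ℕ, ∀ a l : ℕ, L ≤ l → ((S ∩ Set.Ico a (a + l)).ncard : ℝ) < δ * l

/-- If the coordinates of the vectors `x(m)` over a number field `K ⊇ k` are P-recursive, there is
`T ≥ 1` such that for each class modulo `T` either all `x(m)` with large `m` in the class are
multiples of one vector, or the set of the `m` in the class for which `x(m)` is not zero and all the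
forms vanish at `x(m)` has upper Banach density zero. -/
def SparseOffProgressions {n : ℕ} {k : Type} [Field k]
    (FF : Set (MvPolynomial (Fin (n + 1)) k)) : Prop :=
  ∀ (K : Type) [Field K] [NumberField K] [Algebra k K] (x : ℕ → Fin (n + 1) → K),
    (∀ j, ∃ t, RecOrder t fun m => x m j) →
    ∃ T : ℕ, 1 ≤ T ∧ ∀ a : ℕ, (∃ c : Fin (n + 1) → K, ∃ N : ℕ, ∀ m ≥ N,
      m % T = a % T → ∃ s : K, x m = s • c) ∨
      BanachDensityZero {m : ℕ | m % T = a % T ∧ x m ≠ 0 ∧
        ∀ F ∈ FF, MvPolynomial.aeval (x m) F = 0}

theorem banach_iff (S : Set ℕ) :
    BanachDensityZero S ↔ ¬ Pool.Agent.N419.HQ.PosDens S := by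
  unfold BanachDensityZero Pool.Agent.N419.HQ.PosDens
  push Not
  constructor
  · intro h δ hδ
    obtain ⟨L, hL⟩ := h δ hδ
    exact ⟨L, fun a l hl => hL a l hl⟩
  · intro h δ hδ
    obtain ⟨L, hL⟩ := h δ hδ
    exact ⟨L, fun a l hl => hL a l hl⟩

/-- (1) For all `n, d, t` there is `B` such that for all number fields `K`, all sets `FF` of forms of
degree at most `d` over `K` whose projective variety contains no nonconstant rational curve, and all
sequences of vectors `x(m)` over `K` with P-recursive coordinates of order at most `t`, on which the
forms vanish for all large `m`, there are at most `B` points in the sense of `EventuallyPoints`.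
(2) Let `FF` be a set of forms over the number field `k` and `σ` an embedding of `k` in `ℂ`. If the
variety is Brody hyperbolic, it contains no nonconstant rational curve; this is equivalent to
`SparseOffProgressions`. -/
theorem result :
    (∀ n d t : ℕ, ∃ B : ℕ, ∀ (K : Type) [Field K] [NumberField K]
      (FF : Set (MvPolynomial (Fin (n + 1)) K)), (∀ F ∈ FF, ∃ e ≤ d, F.IsHomogeneous e) →
      ∀ σ : K →+* ℂ, NoRatC σ FF → ∀ x : ℕ → Fin (n + 1) → K,
        (∀ j, RecOrder t fun m => x m j) →
        (∃ N : ℕ, ∀ m ≥ N, ∀ F ∈ FF, MvPolynomial.eval (x m) F = 0) →
        EventuallyPoints B x) ∧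
    ∀ (k : Type) [Field k] [NumberField k] (n : ℕ) (FF : Set (MvPolynomial (Fin (n + 1)) k)),
      (∀ F ∈ FF, ∃ e, F.IsHomogeneous e) → ∀ σ : k →+* ℂ,
      (BrodyHyperbolic ((MvPolynomial.map σ) '' FF) → NoRatC σ FF) ∧
      (NoRatC σ FF ↔ SparseOffProgressions FF) := by
  refine ⟨fun n d t => ?_, fun k _ _ n FF hhom σ => ⟨fun hyp => ?_, fun hno => ?_, fun h => ?_⟩⟩
  · obtain ⟨B, hB⟩ := Pool.Agent.N419.HU.seq_all n d t
    exact ⟨B, fun K _ _ FF hFF σ hno x hx hX => hB K FF hFF σ hno x hx hX⟩
  · intro q hq i j a b
    refine Pool.Agent.TH409.SH.no_curveC' _ ?_ hyp q ?_ i j a b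
    · rintro _ ⟨F, hF, rfl⟩
      obtain ⟨e, he⟩ := hhom F hF
      exact ⟨e, he.map _⟩
    · rintro _ ⟨F, hF, rfl⟩
      rw [MvPolynomial.aeval_def, MvPolynomial.eval₂_map]
      exact hq F hF
  · intro K _ _ _ x hx
    obtain ⟨T, hT, h⟩ := Pool.Agent.N419.HQ.fin_dens Pool.Agent.N419.HU.u_prec
      Pool.Agent.N419.HU.u_sub σ FF hhom hno K x hx
    exact ⟨T, hT, fun a => (h a).imp id fun h' => (banach_iff _).2 h'⟩
  · refine Pool.Agent.N419.HQ.fin_conv_dens σ FF ?_
    intro K _ _ _ x hx
    obtain ⟨T, hT, h'⟩ := h K x hx
    exact ⟨T, hT, fun a => (h' a).imp id fun h'' => (banach_iff _).1 h''⟩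

end Pool.Agent.Results.MP_627a61_nt.HolonomicSequences
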