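import Pool.Agent.N111.KC.Fin

/-!
# Rational points on hyperbolic varieties: Kummer coverings of projective spaces suffice

MP_627a61_nt, Q1. Let `V` be any projective variety in `P^n`, `n ≥ 1` (any dimension, any
singularities), over a field `k` of characteristic zero, `ver : P^n → P^N` a Veronese embedding of
sufficiently large degree, and `m ≥ 4`. There are finitely many quadratic forms `T_j` over `k` and
coordinates `x_{c(j)}` of `P^N` such that the covering

`X : y_j ^ (2 m) + T_j(x) ^ m = x_{c(j)} ^ (2 m)`, `j ∈ κ`,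

of `P^N` has the following properties. It contains the finitely many copies
`(ver x, ζ_j (ver x)_{c(j)})`, `ζ_j ^ (2 m) = 1`, of `V`. All nonconstant entire curves in `X_σ`, for
all embeddings `σ` of `k` in the complex numbers, lie in the copies of `V_σ`; so `X_σ` is hyperbolic
if and only if `V_σ` is. If the Fermat curve `u ^ m + v ^ (2 m) = 1` has only finitely many points
over `k`, then all but finitely many points of `X(k)` lie in the copies of `V(k)`; so `X(k)` is
finite if and only if `V(k)` is. The condition on the Fermat curve holds for `k = ℚ` if `m` is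
divisible by four (Fermat), and for all `m` for which Fermat's last theorem holds.

Consequently, for a number field `k` with an embedding `σ` and for each fixed `m ≥ 4`, Q1 for all
projective varieties over `k` is equivalent to Q1 for these coverings of projective spaces (no
hypothesis: the Fermat curve is one of them); and for `k = ℚ`, `4 ∣ m`, the counterexamples to Q1
correspond to each other: a projective variety `V` over `ℚ` is a counterexample if and only if its
covering `X` is one.

The proof is described in `Pool/Agent/Results/MP_f82ddf_nt/KummerCoversSuffice.lean`, where the same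
coverings are used for the question on all finite extensions of `k`.
-/

set_option autoImplicit false

namespace Pool.Agent.Results.MP_627a61_nt.KummerCoverings

open MvPolynomial
open scoped LinearAlgebra.Projectivization
open Pool.Agent.N111.KC (points Hyperbolic kummer Monomials veronese fermatPts)

/-- Q1 for all projective varieties over `k` and the embedding `σ`: if `V_σ` is hyperbolic, then
`V(k)` is finite. -/
def LangProjective {k : Type} [Field k] (σ : k →+* ℂ) : Prop :=
  ∀ (n : ℕ) (ι : Type) [Finite ι] (F : ι → MvPolynomial (Fin (n + 1)) k),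
    (∀ i, ∃ d, (F i).IsHomogeneous d) → Hyperbolic σ F → (points F k).Finite

/-- Q1 for the coverings `y_j ^ (2 m) + T_j(x) ^ m = x_{c(j)} ^ (2 m)` of projective spaces. -/
def LangKummer {k : Type} [Field k] (m : ℕ) (σ : k →+* ℂ) : Prop :=
  ∀ (N : ℕ) (κ : Type) [Finite κ] (T : κ → MvPolynomial (Fin (N + 1)) k) (c : κ → Fin (N + 1)),
    (∀ j, (T j).IsHomogeneous 2) → Hyperbolic σ (kummer m T c) → (points (kummer m T c) k).Finite

section proof

open Pool.Agent.N111.KC

theorem fermat_rat {m : ℕ} (hm : 1 ≤ m) (h : FermatLastTheoremFor m) : (fermatPts m ℚ).Finite := by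
  have hQ : FermatLastTheoremWith ℚ m := ((fermatLastTheoremWith_nat_int_rat_tfae m).out 0 2).1 h
  have hfin : ∀ r : ℕ, 1 ≤ r → {t : ℚ | t ^ r = 1}.Finite := fun r hr => fin_roots hr 1
  refine (((Set.finite_singleton (0 : ℚ)).prod (hfin (2 * m) (by omega))).union
    ((hfin m hm).prod (Set.finite_singleton (0 : ℚ)))).subset ?_
  rintro ⟨u, v⟩ huv
  have huv' : u ^ m + v ^ (2 * m) = 1 := huv
  by_cases hu : u = 0
  · left
    refine ⟨hu, ?_⟩
    rw [hu, zero_pow (by omega), zero_add] at huv'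
    exact huv'
  · right
    have hv : v = 0 := by
      by_contra hv
      refine hQ u (v ^ 2) 1 hu (pow_ne_zero _ hv) one_ne_zero ?_
      rw [← pow_mul, one_pow]
      exact huv'
    refine ⟨?_, hv⟩
    rw [hv, zero_pow (by omega), add_zero] at huv'
    exact huv'

theorem flt_of_dvd {m : ℕ} (hm : 4 ∣ m) : FermatLastTheoremFor m :=
  FermatLastTheoremFor.mono hm fermatLastTheoremFour

theorem main_part {m : ℕ} (hm : 4 ≤ m) (K : Type) [Field K] [CharZero K] (n : ℕ) (hn : 1 ≤ n)
    (ι : Type) [Finite ι] (F : ι → MvPolynomial (Fin (n + 1)) K)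
    (hF : ∀ i, ∃ d, (F i).IsHomogeneous d) :
    ∃ (N d : ℕ) (μ : Fin (N + 1) → Fin (n + 1) → ℕ) (κ : Type) (_ : Finite κ)
      (T : κ → MvPolynomial (Fin (N + 1)) K) (c : κ → Fin (N + 1)),
      Monomials n N d μ ∧ 1 ≤ d ∧ (∀ j, (T j).IsHomogeneous 2) ∧
      (∀ (x : Fin (n + 1) → K) (ζ : κ → K), (∀ i, aeval x (F i) = 0) → (∀ j, ζ j ^ (2 * m) = 1) →
        ∀ j, aeval (Sum.elim (veronese μ x) fun j => ζ j * veronese μ x (c j))
          (kummer m T c j) = 0) ∧
      (∀ (σ : K →+* ℂ) (f : ℂ → Fin (N + 1) ⊕ κ → ℂ), (∀ j, Differentiable ℂ fun z => f z j) →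
        (∀ z, f z ≠ 0) → (∀ z j, eval₂ σ (f z) (kummer m T c j) = 0) →
          (∀ z w, ∃ c : ℂ, f z = c • f w) ∨
          ∃ (g : ℂ → Fin (n + 1) → ℂ) (ζ : κ → ℂ), (∀ j, Differentiable ℂ fun z => g z j) ∧
            (∀ z, g z ≠ 0) ∧ (∀ z i, eval₂ σ (g z) (F i) = 0) ∧ (∀ j, ζ j ^ (2 * m) = 1) ∧
            ∀ z, f z = Sum.elim (veronese μ (g z)) fun j => ζ j * veronese μ (g z) (c j)) ∧
      (∀ σ : K →+* ℂ, Hyperbolic σ (kummer m T c) ↔ Hyperbolic σ F) ∧
      ((fermatPts m K).Finite →
        {P ∈ points (kummer m T c) K |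
          ¬ ∃ (x : Fin (n + 1) → K) (ζ : κ → K) (a : K), (∀ i, aeval x (F i) = 0) ∧
            (∀ j, ζ j ^ (2 * m) = 1) ∧
              P.rep = a • Sum.elim (veronese μ x) fun j => ζ j * veronese μ x (c j)}.Finite ∧
        ((points (kummer m T c) K).Finite ↔ (points F K).Finite)) := by
  obtain ⟨N, d, μ, ι', hι', q, D⟩ := exists_data hn F hF
  refine ⟨N, d, μ, ι' × Fin (N + 1), inferInstance, TT q, Prod.snd,
    ⟨D.mon.deg, D.mon.inj, D.mon.surj⟩, D.pos, fun k => D.hom k.1, ?_, ?_, ?_, ?_⟩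
  · intro x ζ hx hζ k
    rw [aeval_cov]
    have h1 : (Sum.elim (veronese μ x) (fun k : ι' × Fin (N + 1) => ζ k * veronese μ x k.2) :
        Fin (N + 1) ⊕ (ι' × Fin (N + 1)) → K) ∘ Sum.inl = Pool.Agent.N254.SQ.ver μ x := rfl
    have h2 := D.zero K x hx k.1
    rw [h1, h2, zero_pow (by omega : m ≠ 0), Sum.elim_inr, Sum.elim_inl, mul_pow, hζ k]
    ring
  · intro σ f hf hf0 h
    by_cases hcon : ∀ z w, ∃ c : ℂ, f z = c • f w
    · exact Or.inl hcon
    · right
      obtain ⟨g, ζ, hg, hg0, hgF, hζ, h1, h2⟩ := curve_in hm D σ hf hf0 h hcon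
      refine ⟨g, ζ, hg, hg0, hgF, hζ, fun z => funext fun i => ?_⟩
      rcases i with i | k
      · exact h1 z i
      · exact h2 z k
  · exact fun σ => ⟨hyp_down (by omega) D σ, hyp_up hm D σ⟩
  · intro hE
    exact ⟨fin_outside (by omega) D hE, fin_down (by omega) D, fin_up (by omega) D hE⟩

end proof

open Pool.Agent.N111.KC in
theorem result (m : ℕ) (hm : 4 ≤ m) :
    -- the coverings attached to a projective variety
    (∀ (k : Type) [Field k] [CharZero k] (n : ℕ), 1 ≤ n → ∀ (ι : Type) [Finite ι]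
      (F : ι → MvPolynomial (Fin (n + 1)) k), (∀ i, ∃ d, (F i).IsHomogeneous d) →
      ∃ (N d : ℕ) (μ : Fin (N + 1) → Fin (n + 1) → ℕ) (κ : Type) (_ : Finite κ)
        (T : κ → MvPolynomial (Fin (N + 1)) k) (c : κ → Fin (N + 1)),
        Monomials n N d μ ∧ 1 ≤ d ∧ (∀ j, (T j).IsHomogeneous 2) ∧
        (∀ (x : Fin (n + 1) → k) (ζ : κ → k), (∀ i, aeval x (F i) = 0) →
          (∀ j, ζ j ^ (2 * m) = 1) →
            ∀ j, aeval (Sum.elim (veronese μ x) fun j => ζ j * veronese μ x (c j))
              (kummer m T c j) = 0) ∧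
        (∀ (σ : k →+* ℂ) (f : ℂ → Fin (N + 1) ⊕ κ → ℂ), (∀ j, Differentiable ℂ fun z => f z j) →
          (∀ z, f z ≠ 0) → (∀ z j, eval₂ σ (f z) (kummer m T c j) = 0) →
            (∀ z w, ∃ c : ℂ, f z = c • f w) ∨
            ∃ (g : ℂ → Fin (n + 1) → ℂ) (ζ : κ → ℂ), (∀ j, Differentiable ℂ fun z => g z j) ∧
              (∀ z, g z ≠ 0) ∧ (∀ z i, eval₂ σ (g z) (F i) = 0) ∧ (∀ j, ζ j ^ (2 * m) = 1) ∧
              ∀ z, f z = Sum.elim (veronese μ (g z)) fun j => ζ j * veronese μ (g z) (c j)) ∧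
        (∀ σ : k →+* ℂ, Hyperbolic σ (kummer m T c) ↔ Hyperbolic σ F) ∧
        ((fermatPts m k).Finite →
          {P ∈ points (kummer m T c) k |
            ¬ ∃ (x : Fin (n + 1) → k) (ζ : κ → k) (a : k), (∀ i, aeval x (F i) = 0) ∧
              (∀ j, ζ j ^ (2 * m) = 1) ∧
                P.rep = a • Sum.elim (veronese μ x) fun j => ζ j * veronese μ x (c j)}.Finite ∧
          ((points (kummer m T c) k).Finite ↔ (points F k).Finite))) ∧
    -- the condition on the Fermat curve
    ((FermatLastTheoremFor m → (fermatPts m ℚ).Finite) ∧ (4 ∣ m → (fermatPts m ℚ).Finite)) ∧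
    -- Lang's question
    ∀ (k : Type) [Field k] [NumberField k] (σ : k →+* ℂ), LangProjective σ ↔ LangKummer m σ := by
  refine ⟨fun K _ _ n hn ι _ F hF => main_part hm K n hn ι F hF,
    ⟨fermat_rat (by omega), fun h => fermat_rat (by omega) (flt_of_dvd h)⟩,
    fun K _ _ σ => ⟨?_, ?_⟩⟩
  · intro h N κ _ T c hT hyp
    obtain ⟨s, ⟨e⟩⟩ := Finite.exists_equiv_fin κ
    have e1 : Fin (N + 1) ⊕ κ ≃ Fin (N + s + 1) :=
      (Equiv.sumCongr (Equiv.refl _) e).trans (finSumFinEquiv.trans (finCongr (by omega)))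
    have hk : ∀ k, ∃ d, (kummer m T c k).IsHomogeneous d := fun k => ⟨2 * m, kummer_hom hT c k⟩
    refine (points_rename_iff e1 hk).1 (h (N + s) κ _ (fun k => ?_) ?_)
    · exact ⟨2 * m, (kummer_hom hT c k).rename_isHomogeneous⟩
    · exact (hyperbolic_rename_iff (F := kummer m T c) e1 σ).2 hyp
  · intro h n ι _ F hF hyp
    have hE : (fermatPts m K).Finite :=
      fermat_fin (h 1 Unit (FT K) (fun _ => 0) FT_hom (fermat_hyp hm σ))
    rcases Nat.eq_zero_or_pos n with hn | hn
    · subst hn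
      exact points_zero F K
    · obtain ⟨N, d, μ, κ, _, T, c, -, -, hT, -, -, hh, hp⟩ := main_part hm K n hn ι F hF
      exact (hp hE).2.1 (h N κ T c hT ((hh σ).2 hyp))

end Pool.Agent.Results.MP_627a61_nt.KummerCoverings
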