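import Pool.Agent.N254.SQ.Fin

/-!
# Lang's question on hyperbolic varieties is a question on smooth hypersurfaces

Let `X` be any projective variety in `P^n`, `n ≥ 1` (any dimension and any singularities), over a field `K`
of characteristic zero, given by forms of degree at most `d`, `d ≥ 3`, and `v : P^n → P^N` the Veronese
embedding of degree `d`. For all `D ≥ D₁(N)` there are quadratic forms `Q_t`, `t < N (2 N + 1)`, over `K`
such that the hypersurface

`Y : ∑ t, Q_t(y) (y_0 + t y_1 + ⋯ + t^N y_N)^D = 0`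

is smooth, contains `v(X)`, and for every embedding `σ` of `K` in `ℂ` all nonconstant entire curves in
`Y_σ` lie in `v(X)_σ`. In particular `Y_σ` is hyperbolic if and only if `X_σ` is hyperbolic.

So Q1, for all projective varieties over a number field `K` and a given embedding `σ`, is equivalent to
Q1 for the smooth hypersurfaces of this form, with `D` in any given infinite set.

Proof. `X` is mapped to the zeros of quadratic forms `q_i` whose Jacobian matrix has rank `≥ N - n > n`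
at all points. Take `Q_t = ∑ c_{t,i} q_i` with general coefficients in `K`. (1) A dimension count over the
generic point of the coefficients shows that `Y` is smooth, and that at a point of `Y` with `2 N + 1`
disjoint vanishing subsums all `q_i` vanish. (2) Along a nonconstant entire curve the sum splits in
minimal vanishing subsums with at most `N` terms each, at least `2 N + 1` in number: in a minimal
vanishing sum the ratio of any two terms is connected by circuits to quotients of Wronskian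
determinants whose characteristic is at most `C T(r)`, with `C` independent of `D`, while one of the
characteristics is at least `(D / N - 2) T(r)` if there are `N + 1` terms.
-/

set_option autoImplicit false

namespace Pool.Agent.Results.MP_627a61_nt.SmoothHypersurfacesSuffice

open MvPolynomial
open scoped LinearAlgebra.Projectivization

section defs

variable {K : Type} [Field K] {ι : Type} {n N : ℕ}

/-- `X(K)` for the closed subset `X` of `P^n` over `K` given by the forms `F i`. -/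
def points (F : ι → MvPolynomial (Fin (n + 1)) K) : Set (ℙ K (Fin (n + 1) → K)) :=
  {P | ∀ i, eval P.rep (F i) = 0}

/-- `X_σ` is hyperbolic (in Brody's form, which is equivalent to Kobayashi's for closed subsets of
projective spaces): every holomorphic map from the complex plane to `X_σ`, given by entire functions
without common zeros, is constant. -/
def Hyperbolic (σ : K →+* ℂ) (F : ι → MvPolynomial (Fin (n + 1)) K) : Prop :=
  ∀ f : ℂ → Fin (n + 1) → ℂ, Differentiable ℂ f → (∀ z, f z ≠ 0) →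
    (∀ z i, eval₂ σ (f z) (F i) = 0) → ∀ z w, ∃ c : ℂ, f z = c • f w

/-- The hypersurface `A = 0` is smooth: over no extension of `K` the partial derivatives have a
common zero in the projective space. -/
def Smooth (A : MvPolynomial (Fin (N + 1)) K) : Prop :=
  ∀ (Ω : Type) [Field Ω] (τ : K →+* Ω) (y : Fin (N + 1) → Ω), y ≠ 0 →
    ∃ j, eval₂ τ y (pderiv j A) ≠ 0

/-- The form `∑ t, Q_t(y) (y_0 + t y_1 + ⋯ + t ^ N y_N) ^ D`. -/
noncomputable def powerForm {M : ℕ} (D : ℕ) (Q : Fin M → MvPolynomial (Fin (N + 1)) K) :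
    MvPolynomial (Fin (N + 1)) K :=
  ∑ t : Fin M, Q t * (∑ j : Fin (N + 1), C (((t : ℕ) : K) ^ (j : ℕ)) * X j) ^ D

/-- `m` enumerates the exponent vectors of the monomials of degree `d` in `n + 1` variables. -/
structure Monomials (n N d : ℕ) (m : Fin (N + 1) → Fin (n + 1) → ℕ) : Prop where
  deg : ∀ a, ∑ j, m a j = d
  inj : Function.Injective m
  surj : ∀ α : Fin (n + 1) → ℕ, ∑ j, α j = d → ∃ a, m a = α

/-- The Veronese map. -/
def veronese {Ω : Type} [Field Ω] (m : Fin (N + 1) → Fin (n + 1) → ℕ) (x : Fin (n + 1) → Ω) :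
    Fin (N + 1) → Ω := fun a => ∏ j, x j ^ m a j

end defs

section questions

variable {K : Type} [Field K]

/-- Q1 for all projective varieties over `K` and the embedding `σ`: if `X_σ` is hyperbolic, then `X(K)` is
finite. -/
def LangProjective (σ : K →+* ℂ) : Prop :=
  ∀ (n : ℕ) (ι : Type) [Finite ι] (F : ι → MvPolynomial (Fin (n + 1)) K),
    (∀ i, ∃ d, (F i).IsHomogeneous d) → Hyperbolic σ F → (points F).Finite

/-- Q1 for the smooth hypersurfaces `∑ Q_t(y) (y_0 + t y_1 + ⋯ + t ^ N y_N) ^ D = 0`, with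
`N (2 N + 1)` quadratic forms `Q_t` over `K` and `D ∈ E`, `D ≥ B N`. -/
def LangSmooth (E : Set ℕ) (B : ℕ → ℕ) (σ : K →+* ℂ) : Prop :=
  ∀ (N D : ℕ) (Q : Fin (N * (2 * N + 1)) → MvPolynomial (Fin (N + 1)) K), D ∈ E → B N ≤ D →
    (∀ t, (Q t).IsHomogeneous 2) → Smooth (powerForm D Q) →
    Hyperbolic σ (fun _ : Unit => powerForm D Q) → (points (fun _ : Unit => powerForm D Q)).Finite

end questions

section proof

open Pool.Agent.N254.SQ (Mon ver geo leaves ver_prop ver_smul ver_ne_zero ver_diff powerSum lin)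

variable {n N d : ℕ} {m : Fin (N + 1) → Fin (n + 1) → ℕ} {K : Type} [Field K]

theorem finite_points (hm : Mon n N d m) (hd : 1 ≤ d) {ι : Type}
    (F : ι → MvPolynomial (Fin (n + 1)) K) (A : MvPolynomial (Fin (N + 1)) K) {e : ℕ}
    (hA : A.IsHomogeneous e)
    (h : ∀ x : Fin (n + 1) → K, (∀ i, eval x (F i) = 0) → eval (ver m x) A = 0)
    (hfin : (points (fun _ : Unit => A)).Finite) : (points F).Finite := by
  classical
  let φ : ℙ K (Fin (n + 1) → K) → ℙ K (Fin (N + 1) → K) := fun P =>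
    Projectivization.mk K (ver m P.rep) (ver_ne_zero hm hd P.rep_nonzero)
  have hφ : Function.Injective φ := by
    intro P P' hP
    obtain ⟨a, ha⟩ := (Projectivization.mk_eq_mk_iff K _ _ _ _).1 hP
    obtain ⟨c, hc⟩ := ver_prop (c := (a : K)) hm hd P.rep_nonzero ha.symm
    have hc0 : c ≠ 0 := by
      intro h0
      rw [h0, zero_smul] at hc
      exact P.rep_nonzero hc
    rw [← P.mk_rep, ← P'.mk_rep, Projectivization.mk_eq_mk_iff]
    exact ⟨Units.mk0 c hc0, hc.symm⟩
  apply Set.Finite.of_finite_image (f := φ) (hfin.subset ?_) hφ.injOn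
  rintro _ ⟨P, hP, rfl⟩ _
  obtain ⟨a, ha⟩ := Projectivization.exists_smul_eq_mk_rep K (ver m P.rep)
    (ver_ne_zero hm hd P.rep_nonzero)
  have h1 : (φ P).rep = (a : K) • ver m P.rep := ha.symm
  change eval (φ P).rep A = 0
  rw [h1]
  have h2 := Pool.Agent.N254.SQ.eval₂_scale (RingHom.id K) hA (a : K) (ver m P.rep)
  change eval₂ (RingHom.id K) ((a : K) • ver m P.rep) A = 0
  rw [h2]
  have h3 : eval₂ (RingHom.id K) (ver m P.rep) A = 0 := h P.rep hP
  rw [h3, mul_zero]

theorem power_hom {M D : ℕ} {Q : Fin M → MvPolynomial (Fin (N + 1)) K}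
    (hQ : ∀ t, (Q t).IsHomogeneous 2) : (powerForm D Q).IsHomogeneous (2 + D) := by
  refine IsHomogeneous.sum _ _ _ fun t _ => ?_
  have h1 := (hQ t).mul ((Pool.Agent.N254.SQ.lin_hom K N (t : ℕ)).pow D)
  rw [one_mul] at h1
  exact h1

theorem main_part : ∃ D₁ : ℕ → ℕ,
    ∀ n d : ℕ, 1 ≤ n → 3 ≤ d → ∃ (N : ℕ) (m : Fin (N + 1) → Fin (n + 1) → ℕ),
      Monomials n N d m ∧ ∀ D, D₁ N ≤ D → ∀ (K : Type) [Field K] [CharZero K] (ι : Type) [Finite ι]
        (F : ι → MvPolynomial (Fin (n + 1)) K), (∀ i, ∃ e ≤ d, (F i).IsHomogeneous e) →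
        ∃ Q : Fin (N * (2 * N + 1)) → MvPolynomial (Fin (N + 1)) K,
          (∀ t, (Q t).IsHomogeneous 2) ∧ Smooth (powerForm D Q) ∧
          (∀ (Ω : Type) [Field Ω] (τ : K →+* Ω) (x : Fin (n + 1) → Ω),
            (∀ i, eval₂ τ x (F i) = 0) → eval₂ τ (veronese m x) (powerForm D Q) = 0) ∧
          ∀ σ : K →+* ℂ,
            (∀ f : ℂ → Fin (N + 1) → ℂ, Differentiable ℂ f → (∀ z, f z ≠ 0) →
              (∀ z, eval₂ σ (f z) (powerForm D Q) = 0) → (∀ z w, ∃ c : ℂ, f z = c • f w) ∨
                ∀ z, ∃ x : Fin (n + 1) → ℂ, (∀ i, eval₂ σ x (F i) = 0) ∧ f z = veronese m x) ∧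
            (Hyperbolic σ (fun _ : Unit => powerForm D Q) ↔ Hyperbolic σ F) := by
  obtain ⟨D₁, H⟩ := geo leaves
  refine ⟨D₁, fun n d hn hd => ?_⟩
  obtain ⟨N, m, hm, -, H2⟩ := H n d hn hd
  refine ⟨N, m, ⟨hm.deg, hm.inj, hm.surj⟩, fun D hD K _ _ ι _ F hF => ?_⟩
  choose e he hFe using hF
  obtain ⟨Q, hQ, hsm, hv, hc⟩ := H2 D hD K ι F e hFe he
  have hd1 : 1 ≤ d := by omega
  have hv' : ∀ (Ω : Type) [Field Ω] (τ : K →+* Ω) (x : Fin (n + 1) → Ω),
      (∀ i, eval₂ τ x (F i) = 0) → eval₂ τ (veronese m x) (powerForm D Q) = 0 := by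
    intro Ω _ τ x hx
    have h1 := hv Ω τ x (fun i => by rw [eval_map]; exact hx i)
    rw [eval_map] at h1
    exact h1
  have hnc : ∀ {M : ℕ} (f : ℂ → Fin (M + 1) → ℂ), (∀ z, f z ≠ 0) →
      ¬ (∀ z w, ∃ c : ℂ, f z = c • f w) → ∃ i j z w, f z i * f w j ≠ f z j * f w i := by
    intro M f hf0 h
    by_contra hcon
    push Not at hcon
    apply h
    intro z w
    obtain ⟨j0, hj0⟩ : ∃ j, f w j ≠ 0 := by
      by_contra h2
      push Not at h2
      exact hf0 w (funext h2)
    refine ⟨f z j0 / f w j0, funext fun i => ?_⟩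
    rw [Pi.smul_apply, smul_eq_mul, div_mul_eq_mul_div, eq_div_iff hj0]
    exact hcon i j0 z w
  have hcur : ∀ σ : K →+* ℂ, ∀ f : ℂ → Fin (N + 1) → ℂ, Differentiable ℂ f → (∀ z, f z ≠ 0) →
      (∀ z, eval₂ σ (f z) (powerForm D Q) = 0) → ¬ (∀ z w, ∃ c : ℂ, f z = c • f w) →
      ∀ z, ∃ x : Fin (n + 1) → ℂ, x ≠ 0 ∧ (∀ i, eval₂ σ x (F i) = 0) ∧ f z = ver m x := by
    intro σ f hf hf0 hfA hcon z
    obtain ⟨x, hx, hxF, hfx⟩ := hc σ (fun j z => f z j) (fun j => (differentiable_pi.1 hf) j)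
      (fun z => by
        by_contra h2
        push Not at h2
        exact hf0 z (funext h2))
      (fun z => by
        rw [eval_map]
        exact hfA z) (hnc f hf0 hcon) z
    exact ⟨x, hx, fun i => by rw [← eval_map]; exact hxF i, hfx⟩
  refine ⟨Q, hQ, ?_, hv', fun σ => ⟨?_, ?_, ?_⟩⟩
  · intro Ω _ τ y hy
    obtain ⟨j, hj⟩ := hsm Ω τ y hy
    refine ⟨j, ?_⟩
    rw [pderiv_map, eval_map] at hj
    exact hj
  · intro f hf hf0 hfA
    by_cases hcon : ∀ z w, ∃ c : ℂ, f z = c • f w
    · exact Or.inl hcon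
    · right
      intro z
      obtain ⟨x, -, h1, h2⟩ := hcur σ f hf hf0 hfA hcon z
      exact ⟨x, h1, h2⟩
  · intro h f hf hf0 hfF z w
    obtain ⟨c, hc⟩ := h (fun z => ver m (f z)) (ver_diff hf)
      (fun z => ver_ne_zero hm hd1 (hf0 z)) (fun z _ => hv' ℂ σ (f z) (hfF z)) z w
    exact ver_prop hm hd1 (hf0 z) hc
  · intro h f hf hf0 hfA
    by_contra hcon
    have hconst : ¬ ∀ z w, ∃ c : ℂ, f w = c • f z := fun h2 => hcon fun z w => h2 w z
    obtain ⟨G, hG, hG0, hGF, hfG⟩ := Pool.Agent.N254.SQ.maps leaves.lift hm hd1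
      (fun i => map σ (F i)) e (fun i => (hFe i).map σ) (map σ (powerForm D Q)) (by
        intro g hg hg0 hgA hgn z
        obtain ⟨x, hx, hxF, hgx⟩ := hc σ g hg hg0 hgA hgn z
        exact ⟨x, hx, hxF, hgx⟩) f hf hf0 (fun z => by
        rw [eval_map]
        exact hfA z ()) hconst
    apply hcon
    intro z w
    obtain ⟨c, hc⟩ := h G hG hG0 (fun z i => by
      rw [← eval_map]
      exact hGF z i) z w
    exact ⟨c ^ d, by rw [hfG, hfG, hc, ver_smul hm]⟩

end proof

open Pool.Agent.N254.SQ (Mon) in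
theorem result : ∃ D₁ : ℕ → ℕ,
    (∀ n d : ℕ, 1 ≤ n → 3 ≤ d → ∃ (N : ℕ) (m : Fin (N + 1) → Fin (n + 1) → ℕ),
      Monomials n N d m ∧ ∀ D, D₁ N ≤ D → ∀ (K : Type) [Field K] [CharZero K] (ι : Type) [Finite ι]
        (F : ι → MvPolynomial (Fin (n + 1)) K), (∀ i, ∃ e ≤ d, (F i).IsHomogeneous e) →
        ∃ Q : Fin (N * (2 * N + 1)) → MvPolynomial (Fin (N + 1)) K,
          (∀ t, (Q t).IsHomogeneous 2) ∧ Smooth (powerForm D Q) ∧
          (∀ (Ω : Type) [Field Ω] (τ : K →+* Ω) (x : Fin (n + 1) → Ω),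
            (∀ i, eval₂ τ x (F i) = 0) → eval₂ τ (veronese m x) (powerForm D Q) = 0) ∧
          ∀ σ : K →+* ℂ,
            (∀ f : ℂ → Fin (N + 1) → ℂ, Differentiable ℂ f → (∀ z, f z ≠ 0) →
              (∀ z, eval₂ σ (f z) (powerForm D Q) = 0) → (∀ z w, ∃ c : ℂ, f z = c • f w) ∨
                ∀ z, ∃ x : Fin (n + 1) → ℂ, (∀ i, eval₂ σ x (F i) = 0) ∧ f z = veronese m x) ∧
            (Hyperbolic σ (fun _ : Unit => powerForm D Q) ↔ Hyperbolic σ F)) ∧
    ∀ (K : Type) [Field K] [NumberField K] (σ : K →+* ℂ) (E : Set ℕ), E.Infinite →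
      (LangProjective σ ↔ LangSmooth E D₁ σ) := by
  obtain ⟨D₁, H⟩ := main_part
  refine ⟨D₁, H, fun K _ _ σ E hE => ⟨?_, ?_⟩⟩
  · intro h N D Q _ _ hQ _ hyp
    exact h N Unit _ (fun _ => ⟨2 + D, power_hom hQ⟩) hyp
  · intro h n ι _ F hF hyp
    classical
    rcases Nat.eq_zero_or_pos n with hn | hn
    · subst hn
      apply Set.Finite.subset (s := {Projectivization.mk K (fun _ : Fin (0 + 1) => (1 : K))
        (fun h2 => one_ne_zero (congrFun h2 0))}) (Set.finite_singleton _)
      intro P _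
      rw [Set.mem_singleton_iff, ← P.mk_rep, Projectivization.mk_eq_mk_iff]
      have h1 : P.rep 0 ≠ 0 := by
        intro h2
        apply P.rep_nonzero
        funext j
        rw [show j = 0 from Fin.ext (by omega)]
        exact h2
      refine ⟨Units.mk0 (P.rep 0) h1, funext fun j => ?_⟩
      rw [show j = 0 from Fin.ext (by omega)]
      change P.rep 0 * 1 = P.rep 0
      rw [mul_one]
    · have hF' := hF
      choose e he using hF
      have := Fintype.ofFinite ι
      have hed : ∀ i, ∃ e' ≤ max 3 (Finset.univ.sup e), (F i).IsHomogeneous e' := fun i =>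
        ⟨e i, le_trans (Finset.le_sup (f := e) (Finset.mem_univ i)) (le_max_right _ _), he i⟩
      obtain ⟨N, m, hm, H2⟩ := H n (max 3 (Finset.univ.sup e)) hn (le_max_left _ _)
      obtain ⟨D, hD, hD2⟩ := hE.exists_gt (D₁ N)
      obtain ⟨Q, hQ, hsm, hv, hs⟩ := H2 D hD2.le K ι F hed
      have hm' : Mon n N (max 3 (Finset.univ.sup e)) m := ⟨hm.deg, hm.inj, hm.surj⟩
      refine finite_points hm' (le_trans (by norm_num) (le_max_left _ _)) F (powerForm D Q)
        (power_hom hQ) (fun x hx => ?_)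
        (h N D Q hD hD2.le hQ hsm ((hs σ).2.2 hyp))
      exact hv K (RingHom.id K) x hx

end Pool.Agent.Results.MP_627a61_nt.SmoothHypersurfacesSuffice
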